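import Pool.Agent.H92.HB.Stm

/-!
# Module BASE of the project HB

The classes over `k` inject into the `p`-primary part of the Tate-Shafarevich group when the group
of the rational points is finite of order prime to `p`.
-/

set_option autoImplicit false
set_option linter.all false

open NumberField IsDedekindDomain WeierstrassCurve
open scoped Classical

namespace Pool.Agent.H36.HB

open Pool.Agent.TH115.GD (act ak rs Pt incl fixed_point act_inj act_act)
open Pool.Agent.H92.HB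
open Pool.Agent.H92P (cu tq tq_inj tq_surj tq_act loc_of' exists_phi' real_triv')
open Pool.Agent.Y125.DQ (act_congr)

/-- division by a power of `p` in a finite group of order prime to `p` -/
theorem div_pow {p : ℕ} (hp : p.Prime) {A : Type} [AddCommGroup A] [Finite A]
    (h : ¬ p ∣ Nat.card A) (M : ℕ) (a : A) : ∃ b, (p ^ M : ℕ) • b = a := by
  induction M generalizing a with
  | zero => exact ⟨a, by rw [pow_zero, one_smul]⟩
  | succ M ih =>
    obtain ⟨b, hb⟩ := Pool.Agent.E8helper21.div_of_card hp h a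
    obtain ⟨c, hc⟩ := ih b
    exact ⟨c, by rw [pow_succ', mul_smul, hc, hb]⟩

theorem quo_card {Z H : Type} [AddCommGroup Z] [AddCommGroup H] (B : AddSubgroup Z)
    (P : AddSubgroup H) [Finite P] (φ : Z →+ H) (hφ : ∀ z, φ z ∈ P)
    (hk : ∀ z, φ z = 0 → z ∈ B) (hB : ∀ z ∈ B, φ z = 0) :
    Finite (Z ⧸ B) ∧ Nat.card (Z ⧸ B) ∣ Nat.card P := by
  let ψ : Z →+ P := φ.codRestrict P hφ
  have hψ : ψ.ker = B := by
    ext z
    rw [AddMonoidHom.mem_ker]
    constructor
    · intro h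
      exact hk z (congrArg Subtype.val h)
    · intro h
      exact Subtype.ext (hB z h)
  have e : (Z ⧸ ψ.ker) ≃+ ψ.range := QuotientAddGroup.quotientKerEquivRange ψ
  rw [← hψ]
  refine ⟨Finite.of_equiv _ e.symm.toEquiv, ?_⟩
  rw [Nat.card_congr e.toEquiv]
  exact AddSubgroup.card_addSubgroup_dvd_card ψ.range

section
variable {k : Type} [Field k] [NumberField k] {V : WeierstrassCurve k}
  (hV : V.map (algebraMap k k) = V)

/-- the inverse of the comparison of the points -/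
noncomputable def inv (Q : Pt V (AlgebraicClosure k)) :
    Pool.Agent.TH841.SH.D.Pt V (AlgebraicClosure k) :=
  (tq_surj hV (AlgebraicClosure k) Q).choose

theorem tq_inv (Q : Pt V (AlgebraicClosure k)) : tq hV (AlgebraicClosure k) (inv hV Q) = Q :=
  (tq_surj hV (AlgebraicClosure k) Q).choose_spec

theorem nat (σ : AlgebraicClosure k ≃ₐ[k] AlgebraicClosure k)
    (R : Pool.Agent.TH841.SH.D.Pt V (AlgebraicClosure k)) :
    tq hV (AlgebraicClosure k) (Pool.Agent.TH841.SH.D.act V σ.toAlgHom R) =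
      act V (ak σ) (tq hV (AlgebraicClosure k) R) :=
  tq_act hV σ.toAlgHom (ak σ) (fun x => rfl) R

/-- the element of the whole group -/
def up (σ : AlgebraicClosure k ≃ₐ[k] AlgebraicClosure k) :
    (⊤ : Subgroup (AlgebraicClosure k ≃ₐ[k] AlgebraicClosure k)) := ⟨σ, trivial⟩

theorem cont_up : Continuous (up (k := k)) :=
  Continuous.subtype_mk continuous_id _

/-- the cochain of a cocycle with values in the points killed by `q` -/
noncomputable def cc {q : ℕ}
    (f : (⊤ : Subgroup (AlgebraicClosure k ≃ₐ[k] AlgebraicClosure k)) → Tor V q) :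
    Pool.Agent.TH841.SH.D.Coch V := fun σ => inv hV (f (up σ)).1

theorem tq_cc {q : ℕ} (f : (⊤ : Subgroup (AlgebraicClosure k ≃ₐ[k] AlgebraicClosure k)) → Tor V q)
    (σ : AlgebraicClosure k ≃ₐ[k] AlgebraicClosure k) :
    tq hV (AlgebraicClosure k) (cc hV f σ) = (f (up σ)).1 := tq_inv hV _

theorem sel_mul {q : ℕ}
    {f : (⊤ : Subgroup (AlgebraicClosure k ≃ₐ[k] AlgebraicClosure k)) → Tor V q}
    (hf : IsSel V q ⊤ f) (σ τ : AlgebraicClosure k ≃ₐ[k] AlgebraicClosure k) :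
    (f (up (σ * τ))).1 = (f (up σ)).1 + act V (ak σ) (f (up τ)).1 := by
  have h := hf.coc (up σ) (up τ)
  have h2 : up (σ * τ) = up σ * up τ := rfl
  rw [h2, h]
  rfl

theorem isSha {q : ℕ} (hq : Odd q)
    {f : (⊤ : Subgroup (AlgebraicClosure k ≃ₐ[k] AlgebraicClosure k)) → Tor V q}
    (hf : IsSel V q ⊤ f) : Pool.Agent.TH841.NF.D.IsShaCoc V (cc hV f) := by
  set f' : (AlgebraicClosure k ≃ₐ[k] AlgebraicClosure k) → Pt V (AlgebraicClosure k) :=
    fun σ => (f (up σ)).1 with hf'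
  have f'mul : ∀ σ τ, f' (σ * τ) = f' σ + act V (ak σ) (f' τ) := sel_mul hf
  have f'Q : ∀ σ, q • f' σ = act V (ak σ) 0 - 0 := by
    intro σ
    rw [map_zero, sub_zero]
    exact (f (up σ)).2
  have hlc : IsLocallyConstant (fun σ : AlgebraicClosure k ≃ₐ[k] AlgebraicClosure k =>
      f (up σ)) := hf.lc.comp_continuous cont_up
  have hcc : ∀ σ, tq hV (AlgebraicClosure k) (cc hV f σ) = f' σ := tq_cc hV f
  refine ⟨⟨hlc.comp (fun t => inv hV t.1), fun σ τ => ?_⟩, fun p => ?_, fun v => ?_⟩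
  · apply tq_inj hV (AlgebraicClosure k)
    rw [map_add, nat, hcc, hcc, hcc, f'mul]
  · refine loc_of' hV _ hcc ?_
    intro ι
    obtain ⟨P, hP⟩ := hf.loc p ι
    refine ⟨P, ?_⟩
    rintro τ' ⟨τ, hτ⟩ σ h
    have h1 := hP τ (up σ) (fun x => by rw [← hτ]; exact h x)
    refine h1.trans ?_
    exact congrArg (fun z => z - P) (act_congr V (fun x => (hτ x).symm) _)
  · refine loc_of' hV _ hcc ?_
    obtain ⟨φ, hφ⟩ := exists_phi' v
    refine real_triv' f'mul hq f'Q φ _ ?_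
    rintro τ' ⟨τ, hτ⟩
    rcases hφ τ with h | h
    · exact Or.inl fun x => by rw [hτ, h]
    · exact Or.inr fun x => by rw [hτ, h]

theorem cc_add {q : ℕ}
    (f g : (⊤ : Subgroup (AlgebraicClosure k ≃ₐ[k] AlgebraicClosure k)) → Tor V q) :
    cc hV (f + g) = cc hV f + cc hV g := by
  funext σ
  apply tq_inj hV (AlgebraicClosure k)
  rw [tq_cc]
  have h : (cc hV f + cc hV g) σ = cc hV f σ + cc hV g σ := rfl
  rw [h, map_add, tq_cc, tq_cc]
  rfl

/-- the homomorphism to the Tate-Shafarevich group -/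
noncomputable def toSha {q : ℕ} (hq : Odd q)
    {S : LocSys (AlgebraicClosure k ≃ₐ[k] AlgebraicClosure k) (Tor V q)} (hS : IsSys V q S) :
    S.Z ⊤ →+ Pool.Agent.TH841.NF.D.shaCoc V :=
  AddMonoidHom.mk' (fun f => ⟨cc hV f.1, isSha hV hq ((hS ⊤ f.1).1 f.2)⟩)
    (fun f g => Subtype.ext (cc_add hV f.1 g.1))

/-- the class in the Tate-Shafarevich group -/
noncomputable def cls : Pool.Agent.TH841.NF.D.shaCoc V →+ Pool.Agent.TH841.NF.D.Sha V :=
  QuotientAddGroup.mk' ((Pool.Agent.TH841.SH.D.cob V).addSubgroupOf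
    (Pool.Agent.TH841.NF.D.shaCoc V))

theorem cls_zero (f : Pool.Agent.TH841.NF.D.shaCoc V) :
    cls f = 0 ↔ Pool.Agent.TH841.SH.D.IsCob V f.1 := by
  have h : (QuotientAddGroup.mk f : (Pool.Agent.TH841.NF.D.shaCoc V) ⧸
      (Pool.Agent.TH841.SH.D.cob V).addSubgroupOf
        (Pool.Agent.TH841.NF.D.shaCoc V)) = 0 ↔ Pool.Agent.TH841.SH.D.IsCob V f.1 := by
    rw [QuotientAddGroup.eq_zero_iff, AddSubgroup.mem_addSubgroupOf]
    exact Iff.rfl
  exact h

/-- the `p`-primary part -/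
noncomputable def prim (p : ℕ) (H : Type) [AddCommGroup H] : AddSubgroup H where
  carrier := {s | ∃ i : ℕ, (p ^ i : ℕ) • s = 0}
  zero_mem' := ⟨0, smul_zero _⟩
  add_mem' := by
    rintro s t ⟨i, hi⟩ ⟨j, hj⟩
    refine ⟨i + j, ?_⟩
    have h1 : (p ^ (i + j) : ℕ) • s = 0 := by
      rw [pow_add, mul_comm, mul_smul, hi, smul_zero]
    have h2 : (p ^ (i + j) : ℕ) • t = 0 := by
      rw [pow_add, mul_smul, hj, smul_zero]
    rw [smul_add, h1, h2, add_zero]
  neg_mem' := by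
    rintro s ⟨i, hi⟩
    exact ⟨i, by rw [smul_neg, hi, neg_zero]⟩

theorem base {p : ℕ} (hp : p.Prime) (hp2 : p ≠ 2) (hfin : Finite V.toAffine.Point)
    (hc : ¬ p ∣ Nat.card V.toAffine.Point)
    (hSha : Finite {s : Pool.Agent.TH841.NF.D.Sha V // ∃ i : ℕ, (p ^ i : ℕ) • s = 0}) (M : ℕ)
    (S : LocSys (AlgebraicClosure k ≃ₐ[k] AlgebraicClosure k) (Tor V (p ^ M)))
    (hS : IsSys V (p ^ M) S) : Finite (S.A ⊤) ∧ Nat.card (S.A ⊤) ∣
      Nat.card {s : Pool.Agent.TH841.NF.D.Sha V // ∃ i : ℕ, (p ^ i : ℕ) • s = 0} := by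
  have hV : V.map (algebraMap k k) = V := by
    rw [Algebra.algebraMap_self, WeierstrassCurve.map_id]
  have hV' : V = V.baseChange k := hV.symm
  haveI : Finite (Pt V k) := Pool.Agent.H92P.cast_fin hV' hfin
  have hc' : ¬ p ∣ Nat.card (Pt V k) := by
    rw [show Nat.card (Pt V k) = Nat.card V.toAffine.Point from
      (Pool.Agent.H92P.cast_card hV').symm]
    exact hc
  have hq : Odd (p ^ M) := (hp.odd_of_ne_two hp2).pow
  haveI : Finite (prim p (Pool.Agent.TH841.NF.D.Sha V)) := hSha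
  refine quo_card (S.B ⊤) (prim p (Pool.Agent.TH841.NF.D.Sha V))
    (cls.comp (toSha hV hq hS)) ?_ ?_ ?_
  · intro z
    refine ⟨M, ?_⟩
    show (p ^ M : ℕ) • (cls (toSha hV hq hS z)) = 0
    rw [← map_nsmul, cls_zero]
    refine ⟨0, fun σ => ?_⟩
    rw [map_zero, sub_zero]
    have h1 : (((p ^ M : ℕ) • toSha hV hq hS z : Pool.Agent.TH841.NF.D.shaCoc V) :
        Pool.Agent.TH841.SH.D.Coch V) σ = (p ^ M : ℕ) • cc hV z.1 σ := rfl
    rw [h1]
    apply tq_inj hV (AlgebraicClosure k)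
    rw [map_nsmul, tq_cc, map_zero]
    exact (z.1 (up σ)).2
  · intro z hz
    have h0 : cls (toSha hV hq hS z) = 0 := hz
    rw [cls_zero] at h0
    obtain ⟨P0, hP0⟩ := h0
    set P := tq hV (AlgebraicClosure k) P0 with hP
    have h1 : ∀ σ : AlgebraicClosure k ≃ₐ[k] AlgebraicClosure k,
        (z.1 (up σ)).1 = act V (ak σ) P - P := by
      intro σ
      have h2 : cc hV z.1 σ = Pool.Agent.TH841.SH.D.act V σ.toAlgHom P0 - P0 := hP0 σ
      rw [← tq_cc hV z.1 σ, h2, map_sub, nat]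
    have h2 : ∀ σ : AlgebraicClosure k ≃ₐ[k] AlgebraicClosure k,
        act V (ak σ) ((p ^ M : ℕ) • P) = (p ^ M : ℕ) • P := by
      intro σ
      have h3 : (p ^ M : ℕ) • (z.1 (up σ)).1 = 0 := (z.1 (up σ)).2
      rw [h1 σ, smul_sub, ← map_nsmul, sub_eq_zero] at h3
      exact h3
    obtain ⟨Q0, hQ0⟩ := fixed_point (K := k) (F := k) V ((p ^ M : ℕ) • P)
      (fun τ => (act_congr V (fun x => rfl) _).trans (h2 τ))
    obtain ⟨R0, hR0⟩ := div_pow hp hc' M Q0
    set R := act V (incl k k (AlgebraicClosure k)) R0 with hR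
    have h3 : ∀ σ : AlgebraicClosure k ≃ₐ[k] AlgebraicClosure k, act V (ak σ) R = R := by
      intro σ
      rw [hR, act_act]
      refine act_congr V (fun x => ?_) R0
      show σ (algebraMap k _ x) = algebraMap k _ x
      exact σ.commutes x
    have h4 : (p ^ M : ℕ) • (P - R) = 0 := by
      have h5 : (p ^ M : ℕ) • R = (p ^ M : ℕ) • P := by
        rw [← hQ0, ← hR0, map_nsmul]
      rw [smul_sub, h5, sub_self]
    refine ⟨⟨P - R, h4⟩, fun σ => Subtype.ext ?_⟩
    show (z.1 (up σ.1)).1 = act V (ak σ.1) (P - R) - (P - R)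
    rw [h1 σ.1, map_sub, h3]
    abel
  · rintro z ⟨t, ht⟩
    show cls (toSha hV hq hS z) = 0
    rw [cls_zero]
    refine ⟨inv hV t.1, fun σ => ?_⟩
    show cc hV z.1 σ = _
    apply tq_inj hV (AlgebraicClosure k)
    rw [map_sub, nat, tq_inv, tq_cc, ht]
    rfl

end

theorem t_BASE : S_BASE := fun k _ _ a b _ p hp hp2 hfin hc hSha M S hS =>
  base hp hp2 hfin hc hSha M S hS

end Pool.Agent.H36.HB
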