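import Pool.Agent.H36.HB.BASE

/-!
# The injection into the Tate-Shafarevich group over a totally complex field, for every prime
-/

set_option autoImplicit false
set_option linter.all false

open NumberField IsDedekindDomain WeierstrassCurve
open scoped Classical

namespace Pool.Agent.H36.HB

open Pool.Agent.TH115.GD (act ak rs Pt incl fixed_point act_inj act_act)
open Pool.Agent.H92.HB
open Pool.Agent.H92P (cu tq tq_inj tq_surj tq_act loc_of' exists_phi' real_triv')
open Pool.Agent.Y125.DQ (act_congr coc_one)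

/-- the automorphisms of the algebraic closure of the completion at a complex place -/
theorem cplx_fix {k : Type} [Field k] [NumberField k] {v : InfinitePlace k} (hv : v.IsComplex)
    (τ : AlgebraicClosure v.Completion ≃ₐ[v.Completion] AlgebraicClosure v.Completion)
    (x : AlgebraicClosure v.Completion) : τ x = x := by
  let r : v.Completion ≃+* ℂ := InfinitePlace.Completion.ringEquivComplexOfIsComplex hv
  letI : Algebra v.Completion ℂ := r.toRingHom.toAlgebra
  haveI : Algebra.IsAlgebraic v.Completion ℂ := ⟨fun y => by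
    obtain ⟨x, rfl⟩ := r.surjective y
    exact isAlgebraic_algebraMap x⟩
  haveI : IsAlgClosure v.Completion ℂ := ⟨inferInstance, inferInstance⟩
  let φ : AlgebraicClosure v.Completion ≃ₐ[v.Completion] ℂ := IsAlgClosure.equiv v.Completion _ _
  obtain ⟨y, hy⟩ := r.surjective (φ x)
  have e1 : x = algebraMap v.Completion _ y := by
    apply φ.injective
    rw [φ.commutes]
    exact hy.symm
  rw [e1, τ.commutes]

section
variable {k : Type} [Field k] [NumberField k] {V : WeierstrassCurve k}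
  (hV : V.map (algebraMap k k) = V)

theorem isSha2 {q : ℕ} (hc : ∀ v : InfinitePlace k, v.IsComplex)
    {f : (⊤ : Subgroup (AlgebraicClosure k ≃ₐ[k] AlgebraicClosure k)) → Tor V q}
    (hf : IsSel V q ⊤ f) : Pool.Agent.TH841.NF.D.IsShaCoc V (cc hV f) := by
  set f' : (AlgebraicClosure k ≃ₐ[k] AlgebraicClosure k) → Pt V (AlgebraicClosure k) :=
    fun σ => (f (up σ)).1 with hf'
  have f'mul : ∀ σ τ, f' (σ * τ) = f' σ + act V (ak σ) (f' τ) := sel_mul hf
  have hlc : IsLocallyConstant (fun σ : AlgebraicClosure k ≃ₐ[k] AlgebraicClosure k =>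
      f (up σ)) := hf.lc.comp_continuous cont_up
  have hcc : ∀ σ, tq hV (AlgebraicClosure k) (cc hV f σ) = f' σ := tq_cc hV f
  refine ⟨⟨hlc.comp (fun t => inv hV t.1), fun σ τ => ?_⟩, fun p => ?_, fun v => ?_⟩
  · apply tq_inj hV (AlgebraicClosure k)
    rw [map_add, nat, hcc, hcc, hcc, f'mul]
  · refine loc_of' hV _ hcc ?_
    intro ι
    obtain ⟨P, hP⟩ := hf.loc p ι
    refine ⟨P, ?_⟩
    rintro τ' ⟨τ, hτ⟩ σ h
    have h1 := hP τ (up σ) (fun x => by rw [← hτ]; exact h x)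
    refine h1.trans ?_
    exact congrArg (fun z => z - P) (act_congr V (fun x => (hτ x).symm) _)
  · refine loc_of' hV _ hcc ?_
    intro ι
    refine ⟨0, ?_⟩
    rintro τ' ⟨τ, hτ⟩ σ h
    have h3 : σ = 1 := by
      ext x
      apply ι.injective
      show ι (σ x) = ι x
      rw [← h x, hτ, cplx_fix (hc v) τ]
    have h4 : f' σ = 0 := by
      rw [h3]
      exact coc_one f'mul
    rw [h4, map_zero, map_zero, sub_zero]

/-- the homomorphism to the Tate-Shafarevich group -/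
noncomputable def toSha2 {q : ℕ} (hc : ∀ v : InfinitePlace k, v.IsComplex)
    {S : LocSys (AlgebraicClosure k ≃ₐ[k] AlgebraicClosure k) (Tor V q)} (hS : IsSys V q S) :
    S.Z ⊤ →+ Pool.Agent.TH841.NF.D.shaCoc V :=
  AddMonoidHom.mk' (fun f => ⟨cc hV f.1, isSha2 hV hc ((hS ⊤ f.1).1 f.2)⟩)
    (fun f g => Subtype.ext (cc_add hV f.1 g.1))

theorem base2 (hcx : ∀ v : InfinitePlace k, v.IsComplex) {p : ℕ} (hp : p.Prime) (hfin : Finite V.toAffine.Point)
    (hc : ¬ p ∣ Nat.card V.toAffine.Point)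
    (hSha : Finite {s : Pool.Agent.TH841.NF.D.Sha V // ∃ i : ℕ, (p ^ i : ℕ) • s = 0}) (M : ℕ)
    (S : LocSys (AlgebraicClosure k ≃ₐ[k] AlgebraicClosure k) (Tor V (p ^ M)))
    (hS : IsSys V (p ^ M) S) : Finite (S.A ⊤) ∧ Nat.card (S.A ⊤) ∣
      Nat.card {s : Pool.Agent.TH841.NF.D.Sha V // ∃ i : ℕ, (p ^ i : ℕ) • s = 0} := by
  have hV : V.map (algebraMap k k) = V := by
    rw [Algebra.algebraMap_self, WeierstrassCurve.map_id]
  have hV' : V = V.baseChange k := hV.symm
  haveI : Finite (Pt V k) := Pool.Agent.H92P.cast_fin hV' hfin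
  have hc' : ¬ p ∣ Nat.card (Pt V k) := by
    rw [show Nat.card (Pt V k) = Nat.card V.toAffine.Point from
      (Pool.Agent.H92P.cast_card hV').symm]
    exact hc
  haveI : Finite (prim p (Pool.Agent.TH841.NF.D.Sha V)) := hSha
  refine quo_card (S.B ⊤) (prim p (Pool.Agent.TH841.NF.D.Sha V))
    (cls.comp (toSha2 hV hcx hS)) ?_ ?_ ?_
  · intro z
    refine ⟨M, ?_⟩
    show (p ^ M : ℕ) • (cls (toSha2 hV hcx hS z)) = 0
    rw [← map_nsmul, cls_zero]
    refine ⟨0, fun σ => ?_⟩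
    rw [map_zero, sub_zero]
    have h1 : (((p ^ M : ℕ) • toSha2 hV hcx hS z : Pool.Agent.TH841.NF.D.shaCoc V) :
        Pool.Agent.TH841.SH.D.Coch V) σ = (p ^ M : ℕ) • cc hV z.1 σ := rfl
    rw [h1]
    apply tq_inj hV (AlgebraicClosure k)
    rw [map_nsmul, tq_cc, map_zero]
    exact (z.1 (up σ)).2
  · intro z hz
    have h0 : cls (toSha2 hV hcx hS z) = 0 := hz
    rw [cls_zero] at h0
    obtain ⟨P0, hP0⟩ := h0
    set P := tq hV (AlgebraicClosure k) P0 with hP
    have h1 : ∀ σ : AlgebraicClosure k ≃ₐ[k] AlgebraicClosure k,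
        (z.1 (up σ)).1 = act V (ak σ) P - P := by
      intro σ
      have h2 : cc hV z.1 σ = Pool.Agent.TH841.SH.D.act V σ.toAlgHom P0 - P0 := hP0 σ
      rw [← tq_cc hV z.1 σ, h2, map_sub, nat]
    have h2 : ∀ σ : AlgebraicClosure k ≃ₐ[k] AlgebraicClosure k,
        act V (ak σ) ((p ^ M : ℕ) • P) = (p ^ M : ℕ) • P := by
      intro σ
      have h3 : (p ^ M : ℕ) • (z.1 (up σ)).1 = 0 := (z.1 (up σ)).2
      rw [h1 σ, smul_sub, ← map_nsmul, sub_eq_zero] at h3
      exact h3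
    obtain ⟨Q0, hQ0⟩ := fixed_point (K := k) (F := k) V ((p ^ M : ℕ) • P)
      (fun τ => (act_congr V (fun x => rfl) _).trans (h2 τ))
    obtain ⟨R0, hR0⟩ := div_pow hp hc' M Q0
    set R := act V (incl k k (AlgebraicClosure k)) R0 with hR
    have h3 : ∀ σ : AlgebraicClosure k ≃ₐ[k] AlgebraicClosure k, act V (ak σ) R = R := by
      intro σ
      rw [hR, act_act]
      refine act_congr V (fun x => ?_) R0
      show σ (algebraMap k _ x) = algebraMap k _ x
      exact σ.commutes x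
    have h4 : (p ^ M : ℕ) • (P - R) = 0 := by
      have h5 : (p ^ M : ℕ) • R = (p ^ M : ℕ) • P := by
        rw [← hQ0, ← hR0, map_nsmul]
      rw [smul_sub, h5, sub_self]
    refine ⟨⟨P - R, h4⟩, fun σ => Subtype.ext ?_⟩
    show (z.1 (up σ.1)).1 = act V (ak σ.1) (P - R) - (P - R)
    rw [h1 σ.1, map_sub, h3]
    abel
  · rintro z ⟨t, ht⟩
    show cls (toSha2 hV hcx hS z) = 0
    rw [cls_zero]
    refine ⟨inv hV t.1, fun σ => ?_⟩
    show cc hV z.1 σ = _
    apply tq_inj hV (AlgebraicClosure k)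
    rw [map_sub, nat, tq_inv, tq_cc, ht]
    rfl

end

theorem t_BASE2 : ∀ (k : Type) [Field k] [NumberField k] (a b : 𝓞 k), 4 * a ^ 3 + 27 * b ^ 2 ≠ 0 →
    (∀ v : NumberField.InfinitePlace k, v.IsComplex) →
    ∀ (p : ℕ), p.Prime → Finite (cu k a b).toAffine.Point →
    ¬ p ∣ Nat.card (cu k a b).toAffine.Point →
    Finite {s : Pool.Agent.TH841.NF.D.Sha (cu k a b) // ∃ i : ℕ, (p ^ i : ℕ) • s = 0} →
    ∀ (M : ℕ) (S : LocSys (AlgebraicClosure k ≃ₐ[k] AlgebraicClosure k) (Tor (cu k a b) (p ^ M))),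
    IsSys (cu k a b) (p ^ M) S → Finite (S.A ⊤) ∧ Nat.card (S.A ⊤) ∣
      Nat.card {s : Pool.Agent.TH841.NF.D.Sha (cu k a b) // ∃ i : ℕ, (p ^ i : ℕ) • s = 0} :=
  fun k _ _ a b _ hcx p hp hfin hc hSha M S hS => base2 hcx hp hfin hc hSha M S hS

end Pool.Agent.H36.HB
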