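import Pool.Agent.H92.TowerD

/-!
# Blocks in a subgroup of bounded index
-/

set_option autoImplicit false
set_option linter.all false

namespace Pool.Agent.H36.HB

/-- In each window there is a block whose product lies, with its images, in the subgroup of
bounded index. -/
theorem idx (N d : ℕ) : ∃ L : ℕ → ℕ, ∀ (X : Type) [CommGroup X] (Y : Subgroup X),
    Y.index ≠ 0 → Y.index ≤ N → ∀ (t : Fin d → X →* X) (g : ℕ → X),
    ∃ B : ℕ → Finset ℕ, (∀ k, (B k).Nonempty ∧ B k ⊆ Finset.Ico (L k) (L (k + 1))) ∧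
      Pool.Agent.H92.clo t g B ≤ Y := by
  classical
  refine ⟨fun k => k * (N ^ d + 1), fun X _ Y h0 hN t g => ?_⟩
  haveI : Y.FiniteIndex := ⟨h0⟩
  haveI : Finite (X ⧸ Y) := inferInstance
  have hcard : Nat.card (Fin d → X ⧸ Y) ≤ N ^ d := by
    rw [Nat.card_fun, Nat.card_eq_fintype_card (α := Fin d), Fintype.card_fin]
    exact Nat.pow_le_pow_left hN d
  have key : ∀ k : ℕ, ∃ B : Finset ℕ, B.Nonempty ∧
      B ⊆ Finset.Ico (k * (N ^ d + 1)) ((k + 1) * (N ^ d + 1)) ∧
      ∀ i, t i (∏ j ∈ B, g j) ∈ Y := by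
    intro k
    set s := k * (N ^ d + 1) with hs
    have hs2 : (k + 1) * (N ^ d + 1) = s + (N ^ d + 1) := by rw [hs]; ring
    let f : Fin (N ^ d + 1) → (Fin d → X ⧸ Y) := fun a i =>
      QuotientGroup.mk (t i (∏ j ∈ Finset.Ico s (s + a), g j))
    have main : ∀ a b : Fin (N ^ d + 1), a < b → f a = f b → ∃ B : Finset ℕ, B.Nonempty ∧
        B ⊆ Finset.Ico s ((k + 1) * (N ^ d + 1)) ∧ ∀ i, t i (∏ j ∈ B, g j) ∈ Y := by
      intro a b hab hf
      have hab' : (a : ℕ) < b := hab
      have hb := b.2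
      refine ⟨Finset.Ico (s + a) (s + b), ?_, ?_, fun i => ?_⟩
      · rw [Finset.nonempty_Ico]
        omega
      · rw [hs2]
        apply Finset.Ico_subset_Ico <;> omega
      · have h1 : (QuotientGroup.mk (t i (∏ j ∈ Finset.Ico s (s + a), g j)) : X ⧸ Y) =
            QuotientGroup.mk (t i (∏ j ∈ Finset.Ico s (s + b), g j)) := congrFun hf i
        rw [QuotientGroup.eq, ← Finset.prod_Ico_consecutive g (show s ≤ s + a by omega)
          (show s + (a : ℕ) ≤ s + b by omega), map_mul, inv_mul_cancel_left] at h1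
        exact h1
    have hninj : ¬ Function.Injective f := by
      intro hinj
      have h1 := Nat.card_le_card_of_injective f hinj
      rw [Nat.card_eq_fintype_card (α := Fin (N ^ d + 1)), Fintype.card_fin] at h1
      omega
    rw [Function.Injective] at hninj
    push Not at hninj
    obtain ⟨a, b, hf, hne⟩ := hninj
    rcases lt_or_gt_of_ne hne with h | h
    · exact main a b h hf
    · exact main b a h hf.symm
  choose B hB1 hB2 hB3 using key
  refine ⟨B, fun k => ⟨hB1 k, hB2 k⟩, ?_⟩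
  rw [Pool.Agent.H92.clo, Subgroup.closure_le]
  rintro _ ⟨i, k, rfl⟩
  exact hB3 k i

end Pool.Agent.H36.HB
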